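import Pool.Agent.T6.H67.EL.AlpFin

/-!
# The smallest graceful tree containing a given tree: `γ(T) ≤ m + 1` for many leaves at the vertices
of a tree with an `α`-labelling

Let `T` be a tree with `m` edges such that the tree of its non-leaves has an `α`-labelling `f`.  Let
`p, q ≥ 2` be the numbers of the non-leaves in the two colour classes.  If every non-leaf in the class
with `q` non-leaves is adjacent to at least `2 ρ + 4` leaves for an integer `ρ ≥ 1` with
`p - 2 ≤ ρ (q - 2)`, and the same holds with the classes exchanged, then `m ≤ γ(T) ≤ m + 1`.  The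
numbers of leaves may be different for all vertices.  For `p = q` the condition is that every non-leaf
is adjacent to at least six leaves.

Moreover `T` is graceful, `γ(T) = m`, if the number of the non-leaves of even degree is odd in one of
the colour classes, or if the number of the non-leaves of even degree whose label in `f` is odd is even
(for example if all non-leaves have odd degree).

The proof.  The non-leaves get the smallest and the largest labels (one colour class each), and the
leaves are attached along a walk on the grid `ℤ × ℤ` with a prescribed number of steps on every column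
and on every row.  Such a walk exists if and only if a parity condition holds (if the numbers are large
enough); one more leaf at a suitable vertex, or one leaf before all non-leaves in the order of the
labels, changes the parity.
-/

set_option autoImplicit false

namespace Pool.Agent.Results.MP_128071_co.AlphaTreesManyLeaves

/-- A graph with `m` edges is graceful if there is an injective map `f` of the vertices to
`{0, 1, …, m}` such that the edge labels `|f u - f v|` are exactly `1, …, m`. -/
def Graceful {V : Type} (T : SimpleGraph V) : Prop :=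
  ∃ f : V → ℕ, Function.Injective f ∧ (∀ v, f v ≤ T.edgeSet.ncard) ∧
    {d : ℕ | ∃ u v : V, T.Adj u v ∧ d = Int.natAbs ((f u : ℤ) - (f v : ℤ))} =
      Set.Icc 1 T.edgeSet.ncard

/-- An `α`-labelling: a graceful labelling `f` with a number `θ` such that every edge has one end
with label less than `θ` and one end with label at least `θ`. -/
def IsAlphaLabelling {V : Type} (T : SimpleGraph V) (f : V → ℕ) (θ : ℕ) : Prop :=
  Function.Injective f ∧ (∀ v, f v ≤ T.edgeSet.ncard) ∧
    {d : ℕ | ∃ u v : V, T.Adj u v ∧ d = Int.natAbs ((f u : ℤ) - (f v : ℤ))} =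
      Set.Icc 1 T.edgeSet.ncard ∧
    ∀ u v, T.Adj u v → (f u < θ ↔ ¬ f v < θ)

/-- The numbers of edges of the finite graceful trees which have a subgraph isomorphic to `T`. -/
def gracefulSizes {V : Type} (T : SimpleGraph V) : Set ℕ :=
  {k | ∃ (W : Type) (_ : Fintype W) (T' : SimpleGraph W),
    T'.IsTree ∧ Graceful T' ∧ T.IsContained T' ∧ T'.edgeSet.ncard = k}

/-- `γ(T)`: the least number of edges of a graceful tree which has a subgraph isomorphic to `T`. -/
noncomputable def gamma {V : Type} (T : SimpleGraph V) : ℕ := sInf (gracefulSizes T)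

/-- The vertices of degree at least two. -/
def nonLeaves {V : Type} (T : SimpleGraph V) : Set V := {x | 2 ≤ (T.neighborSet x).ncard}

theorem le_of_mem {V : Type} {T : SimpleGraph V} {k : ℕ}
    (hk : k ∈ gracefulSizes T) : T.edgeSet.ncard ≤ k := by
  classical
  obtain ⟨W, _, T', _, _, ⟨φ⟩, rfl⟩ := hk
  have hinj : Function.Injective φ := φ.injective
  have h1 : Sym2.map φ '' T.edgeSet ⊆ T'.edgeSet := by
    rintro _ ⟨e, he, rfl⟩
    induction e using Sym2.ind with
    | _ x y =>
      rw [Sym2.map_mk, SimpleGraph.mem_edgeSet]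
      exact φ.toHom.map_adj ((SimpleGraph.mem_edgeSet T).1 he)
  calc T.edgeSet.ncard = (Sym2.map φ '' T.edgeSet).ncard :=
        (Set.ncard_image_of_injective _ (Sym2.map.injective hinj)).symm
    _ ≤ T'.edgeSet.ncard := Set.ncard_le_ncard h1 (Set.toFinite _)

open Pool.Agent.H336.GW Pool.Agent.T6.H67.EL Pool.Agent.H39R3 in
/-- Let `T` be a finite tree such that the tree of its non-leaves has an `α`-labelling `f`.  Let `c` be
the colouring of `T` with two colours, with at least two non-leaves of each colour, and let `ρ b ≥ 1`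
for each colour `b` be such that

* the number of the non-leaves of the other colour is at most `ρ b (p_b - 2) + 2`, where `p_b` is the
  number of the non-leaves of colour `b`;
* every non-leaf of colour `b` is adjacent to at least `2 ρ b + 4` leaves.

Then `|E(T)| ≤ γ(T) ≤ |E(T)| + 1`.  If for one colour the number of the non-leaves of this colour which
have even degree in `T` is odd, or if the number of the non-leaves of even degree with an odd label in
`f` is even, then `T` is graceful and `γ(T) = |E(T)|`. -/
theorem result (V : Type) [Fintype V] (T : SimpleGraph V) (hT : T.IsTree)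
    (f : nonLeaves T → ℕ) (θ : ℕ) (hf : IsAlphaLabelling (T.induce (nonLeaves T)) f θ)
    (c : V → Bool) (hc : ∀ u v, T.Adj u v → c u ≠ c v)
    (h2 : ∀ b, 2 ≤ {x | x ∈ nonLeaves T ∧ c x = b}.ncard)
    (ρ : Bool → ℕ) (hρ1 : ∀ b, 1 ≤ ρ b)
    (hρ : ∀ b, {x | x ∈ nonLeaves T ∧ c x = !b}.ncard ≤
      ρ b * ({x | x ∈ nonLeaves T ∧ c x = b}.ncard - 2) + 2)
    (hl : ∀ x ∈ nonLeaves T, 2 * ρ (c x) + 4 ≤ {y | T.Adj x y ∧ y ∉ nonLeaves T}.ncard) :
    gamma T ∈ gracefulSizes T ∧ T.edgeSet.ncard ≤ gamma T ∧ gamma T ≤ T.edgeSet.ncard + 1 ∧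
    ((∃ b, Odd {x | x ∈ nonLeaves T ∧ c x = b ∧ Even (T.neighborSet x).ncard}.ncard) ∨
      Even {x : nonLeaves T | Even (T.neighborSet (x : V)).ncard ∧ Odd (f x)}.ncard →
      Graceful T ∧ gamma T = T.edgeSet.ncard) := by
  classical
  set S : Finset V := (inner T).toFinset with hS
  have hSm : ∀ x, x ∈ S ↔ x ∈ inner T := fun x => by simp [hS]
  obtain ⟨x0, hx0, -⟩ : {x | x ∈ nonLeaves T ∧ c x = true}.Nonempty := by
    rw [← Set.ncard_pos (Set.toFinite _)]
    have := h2 true
    omega
  have hx0' : x0 ∈ inner T := hx0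
  have htree : (T.induce (inner T)).IsTree := induce_tree hT ⟨x0, hx0⟩
  obtain ⟨f1, f2, f3, f4⟩ := hf
  have f5 := distinct_of_graceful (T := T.induce (inner T)) f f1 f2 f3
  have hk := edges_card htree
  have hcardS : S.card = Fintype.card (inner T) := by
    rw [hS, Set.toFinset_card]
  -- the colour of the small labels
  obtain ⟨lo, hlo⟩ : ∃ lo : Bool, ∀ x : inner T, c x = lo ↔ f x < θ := by
    have hc' : ∀ u v, (T.induce (inner T)).Adj u v → (decide (f u < θ)) ≠ (decide (f v < θ)) := by
      intro u v huv e
      have h1 := f4 u v huv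
      have h2 := decide_eq_decide.1 e
      tauto
    have key := col_eq htree.1 (fun x => c x) (fun x => decide (f x < θ))
      (fun u v h => hc u v h) hc' ⟨x0, hx0'⟩
    by_cases h0 : c x0 = decide (f ⟨x0, hx0'⟩ < θ)
    · refine ⟨true, fun x => ?_⟩
      have h1 : c x = decide (f x < θ) := (key x).2 h0
      rw [h1]
      simp
    · refine ⟨false, fun x => ?_⟩
      have h1 : ¬ c x = decide (f x < θ) := fun h => h0 ((key x).1 h)
      by_cases hfx : f x < θ
      · simp only [hfx, decide_true] at h1
        simp only [hfx, iff_true]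
        cases hcx : c x
        · rfl
        · exact absurd hcx h1
      · simp only [hfx, decide_false] at h1
        simp only [hfx, iff_false]
        exact h1
  obtain ⟨g, hg⟩ : ∃ g : V → ℕ, ∀ x (hx : x ∈ inner T), g x = f ⟨x, hx⟩ :=
    ⟨fun x => if h : x ∈ inner T then f ⟨x, h⟩ else 0, fun x hx => by simp only [dif_pos hx]⟩
  have hA : Alp T S c lo θ g := by
    refine ⟨?_, ?_, ?_, ?_⟩
    · intro x hx
      have hx' := (hSm x).1 hx
      rw [hg x hx', hcardS, ← hk]
      exact Nat.lt_succ_of_le (f2 _)
    · intro x hx y hy e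
      have hx' := (hSm x).1 hx
      have hy' := (hSm y).1 hy
      rw [hg x hx', hg y hy'] at e
      exact congrArg Subtype.val (f1 e)
    · intro x hx
      have hx' := (hSm x).1 hx
      rw [hg x hx']
      exact hlo ⟨x, hx'⟩
    · intro x hx z hz x' hx' z' hz' h h' e
      have a1 := (hSm x).1 hx
      have a2 := (hSm z).1 hz
      have a3 := (hSm x').1 hx'
      have a4 := (hSm z').1 hz'
      rw [hg x a1, hg z a2, hg x' a3, hg z' a4] at e
      have h5 := f5 ⟨x, a1⟩ ⟨z, a2⟩ ⟨x', a3⟩ ⟨z', a4⟩ h h' e
      have h6 := congrArg (Sym2.map Subtype.val) h5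
      simpa using h6
  -- the neighbours of the leaves
  have hπ0 : ∀ y, ∃ u, y ∉ inner T → T.Adj u y ∧ u ∈ inner T := by
    intro y
    by_cases hy : y ∈ inner T
    · exact ⟨y, fun h => absurd hy h⟩
    · obtain ⟨u, hu⟩ := exists_nbr hT.1 hx0' hy
      exact ⟨u, fun _ => hu⟩
  choose π hπ using hπ0
  have hπu : ∀ y, y ∉ inner T → ∀ x, T.Adj x y → x = π y := by
    intro y hy x hxy
    by_contra hne
    exact hy (two_le_of hxy.symm (hπ y hy).1.symm hne)
  have hcard : ∀ b, (S.filter (fun z => c z = b)).card = {x | x ∈ nonLeaves T ∧ c x = b}.ncard := by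
    intro b
    rw [← Set.ncard_coe_finset]
    congr 1
    ext z
    rw [Finset.mem_coe, Finset.mem_filter, hSm]
    rfl
  have hleaf : ∀ x ∈ S, (Sᶜ.filter (fun y => π y = x)).card =
      {y | T.Adj x y ∧ y ∉ nonLeaves T}.ncard := by
    intro x _
    rw [← Set.ncard_coe_finset]
    congr 1
    ext y
    rw [Finset.mem_coe, Finset.mem_filter, Finset.mem_compl, hSm]
    constructor
    · rintro ⟨hy, rfl⟩
      exact ⟨(hπ y hy).1, hy⟩
    · rintro ⟨h, hy⟩
      exact ⟨hy, (hπu y hy x h).symm⟩
  have hmain := alp_main (S := S) (π := π) (g := g) hT hc hSm hA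
    (fun y hy => by
      rw [hSm] at hy ⊢
      exact ⟨(hπ y hy).2, (hπ y hy).1⟩)
    (fun y hy => by
      rw [hSm] at hy
      exact hπu y hy) ρ
    (fun b => by rw [hcard]; exact h2 b)
    (fun b => by rw [hcard, hcard]; exact hρ b)
    (fun x hx => by rw [hleaf x hx]; exact hl x ((hSm x).1 hx)) hρ1
  have hgr : Graceful T → Graceful T ∧ gamma T = T.edgeSet.ncard := by
    intro h
    have hmem : T.edgeSet.ncard ∈ gracefulSizes T :=
      ⟨V, inferInstance, T, hT, h, SimpleGraph.IsContained.refl T, rfl⟩
    exact ⟨h, le_antisymm (Nat.sInf_le hmem) (le_of_mem (Nat.sInf_mem ⟨_, hmem⟩))⟩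
  rcases hmain with h | ⟨h3, h4, v, h5⟩
  · have h' := hgr h
    have hmem : T.edgeSet.ncard ∈ gracefulSizes T :=
      ⟨V, inferInstance, T, hT, h, SimpleGraph.IsContained.refl T, rfl⟩
    exact ⟨by rw [h'.2]; exact hmem, h'.2.ge, by rw [h'.2]; omega, fun _ => h'⟩
  · have hatt := attach_isTree_card (v := v) (a := 1) (b := 0) hT
    have hmem : T.edgeSet.ncard + 1 ∈ gracefulSizes T := by
      refine ⟨_, inferInstance, attach T v 1 0, hatt.1, h5, ?_, by rw [hatt.2]⟩
      exact ⟨⟨⟨Sum.inl, fun {a b} h => h⟩, Sum.inl_injective⟩⟩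
    have hmem' : gamma T ∈ gracefulSizes T := Nat.sInf_mem ⟨_, hmem⟩
    refine ⟨hmem', le_of_mem hmem', Nat.sInf_le hmem, ?_⟩
    rintro (⟨b, hb⟩ | he)
    · exfalso
      apply h3 b
      have : (S.filter (fun x => c x = b ∧ Even (T.neighborSet x).ncard)).card =
          {x | x ∈ nonLeaves T ∧ c x = b ∧ Even (T.neighborSet x).ncard}.ncard := by
        rw [← Set.ncard_coe_finset]
        congr 1
        ext z
        rw [Finset.mem_coe, Finset.mem_filter, hSm]
        rfl
      rw [this]
      exact hb
    · exfalso
      apply h4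
      have : (S.filter (fun x => Even (T.neighborSet x).ncard ∧ Odd (g x))).card =
          {x : nonLeaves T | Even (T.neighborSet (x : V)).ncard ∧ Odd (f x)}.ncard := by
        rw [← Set.ncard_coe_finset, ← Set.ncard_image_of_injective _
          (Subtype.val_injective (p := fun x => x ∈ nonLeaves T))]
        congr 1
        ext z
        rw [Finset.mem_coe, Finset.mem_filter, hSm, Set.mem_image]
        constructor
        · rintro ⟨h6, h7, h8⟩
          refine ⟨⟨z, h6⟩, ⟨h7, ?_⟩, rfl⟩
          rw [hg z h6] at h8
          exact h8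
        · rintro ⟨⟨z', h6⟩, ⟨h7, h8⟩, rfl⟩
          refine ⟨h6, h7, ?_⟩
          rw [hg z' h6]
          exact h8
      rw [this]
      exact he

end Pool.Agent.Results.MP_128071_co.AlphaTreesManyLeaves
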