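import Pool.Agent.T6.H67.EL.Cat

/-!
# The smallest graceful tree containing a given tree: lobsters with many leaves

Let `T` be a lobster: a finite tree which becomes a path if its leaves are deleted and then the leaves
of the remaining tree are deleted.  Let `p` and `q` be the numbers of the non-leaves of `T` in the two
colour classes, `p, q ≥ 2`.  If every non-leaf in the class with `q` non-leaves is adjacent to at least
`2 ρ + 4` leaves for an integer `ρ ≥ 1` with `p - 2 ≤ ρ (q - 2)`, and the same holds with the classes
exchanged, then `T` is graceful: `T` itself is the smallest graceful tree containing `T`.  For `p = q`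
the condition is that every non-leaf is adjacent to at least six leaves.  There is no condition on the
parities of the numbers of leaves and of the numbers of the branches.

The proof.  The non-leaves get the smallest and the largest labels (one colour class each), and the
leaves are attached along a walk on the grid `ℤ × ℤ` with a prescribed number of steps on every
column and on every row.  Such a walk exists if and only if a parity condition holds (and the numbers
are large enough).  The parity condition is that the sum of the labels of the non-leaves of even degree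
is even; if it fails for the first labelling of the non-leaves, one leaf is inserted into the order of
the labels next to a non-leaf of even degree, before it or after it, and one of the two
places is good.  The walk for the new labelling has one column without steps.
-/

set_option autoImplicit false

namespace Pool.Agent.Results.MP_128071_co.LobstersManyLeaves

/-- A graph with `m` edges is graceful if there is an injective map `f` of the vertices to
`{0, 1, …, m}` such that the edge labels `|f u - f v|` are exactly `1, …, m`. -/
def Graceful {V : Type} (T : SimpleGraph V) : Prop :=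
  ∃ f : V → ℕ, Function.Injective f ∧ (∀ v, f v ≤ T.edgeSet.ncard) ∧
    {d : ℕ | ∃ u v : V, T.Adj u v ∧ d = Int.natAbs ((f u : ℤ) - (f v : ℤ))} =
      Set.Icc 1 T.edgeSet.ncard

/-- The numbers of edges of the finite graceful trees which have a subgraph isomorphic to `T`. -/
def gracefulSizes {V : Type} (T : SimpleGraph V) : Set ℕ :=
  {k | ∃ (W : Type) (_ : Fintype W) (T' : SimpleGraph W),
    T'.IsTree ∧ Graceful T' ∧ T.IsContained T' ∧ T'.edgeSet.ncard = k}

/-- `γ(T)`: the least number of edges of a graceful tree which has a subgraph isomorphic to `T`. -/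
noncomputable def gamma {V : Type} (T : SimpleGraph V) : ℕ := sInf (gracefulSizes T)

/-- The vertices of degree at least two. -/
def nonLeaves {V : Type} (T : SimpleGraph V) : Set V := {x | 2 ≤ (T.neighborSet x).ncard}

/-- `T` is a lobster: deleting the leaves of `T` and then the leaves of the remaining tree gives a
path with at least one vertex. -/
def IsLobster {V : Type} (T : SimpleGraph V) : Prop :=
  ∃ n : ℕ, Nonempty ((T.induce (nonLeaves T)).induce (nonLeaves (T.induce (nonLeaves T))) ≃g
    SimpleGraph.pathGraph (n + 1))

theorem le_of_mem {V : Type} {T : SimpleGraph V} {k : ℕ}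
    (hk : k ∈ gracefulSizes T) : T.edgeSet.ncard ≤ k := by
  classical
  obtain ⟨W, _, T', _, _, ⟨φ⟩, rfl⟩ := hk
  have hinj : Function.Injective φ := φ.injective
  have h1 : Sym2.map φ '' T.edgeSet ⊆ T'.edgeSet := by
    rintro _ ⟨e, he, rfl⟩
    induction e using Sym2.ind with
    | _ x y =>
      rw [Sym2.map_mk, SimpleGraph.mem_edgeSet]
      exact φ.toHom.map_adj ((SimpleGraph.mem_edgeSet T).1 he)
  calc T.edgeSet.ncard = (Sym2.map φ '' T.edgeSet).ncard :=
        (Set.ncard_image_of_injective _ (Sym2.map.injective hinj)).symm
    _ ≤ T'.edgeSet.ncard := Set.ncard_le_ncard h1 (Set.toFinite _)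

open Pool.Agent.H336.GW Pool.Agent.T6.H67.EL in
/-- Let `T` be a finite lobster with the colouring `c` with two colours, with at least two non-leaves
of each colour, and let `ρ b ≥ 1` for each colour `b` be such that

* the number of the non-leaves of the other colour is at most `ρ b (p_b - 2) + 2`, where `p_b` is the
  number of the non-leaves of colour `b`;
* every non-leaf of colour `b` is adjacent to at least `2 ρ b + 4` leaves.

Then `T` is graceful and `γ(T) = |E(T)|`: `T` is a smallest graceful tree containing `T`. -/
theorem result (V : Type) [Fintype V] (T : SimpleGraph V) (hT : T.IsTree) (hlob : IsLobster T)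
    (c : V → Bool) (hc : ∀ u v, T.Adj u v → c u ≠ c v)
    (h2 : ∀ b, 2 ≤ {x | x ∈ nonLeaves T ∧ c x = b}.ncard)
    (ρ : Bool → ℕ) (hρ1 : ∀ b, 1 ≤ ρ b)
    (hρ : ∀ b, {x | x ∈ nonLeaves T ∧ c x = !b}.ncard ≤
      ρ b * ({x | x ∈ nonLeaves T ∧ c x = b}.ncard - 2) + 2)
    (hl : ∀ x ∈ nonLeaves T, 2 * ρ (c x) + 4 ≤ {y | T.Adj x y ∧ y ∉ nonLeaves T}.ncard) :
    Graceful T ∧ gamma T ∈ gracefulSizes T ∧ gamma T = T.edgeSet.ncard := by
  classical
  obtain ⟨n, ⟨e⟩⟩ := hlob
  set S : Finset V := (inner T).toFinset with hS
  have hSm : ∀ x, x ∈ S ↔ x ∈ inner T := fun x => by simp [hS]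
  obtain ⟨w0, -⟩ := e.surjective ⟨0, by omega⟩
  have hx0 : w0.1.1 ∈ inner T := w0.1.2
  obtain ⟨κ, hκ, hNC⟩ := cat_order (S := S) hT hc hSm n e
  -- the neighbours of the leaves
  have hπ0 : ∀ y, ∃ u, y ∉ inner T → T.Adj u y ∧ u ∈ inner T := by
    intro y
    by_cases hy : y ∈ inner T
    · exact ⟨y, fun h => absurd hy h⟩
    · obtain ⟨u, hu⟩ := exists_nbr hT.1 hx0 hy
      exact ⟨u, fun _ => hu⟩
  choose π hπ using hπ0
  have hπu : ∀ y, y ∉ inner T → ∀ x, T.Adj x y → x = π y := by
    intro y hy x hxy
    by_contra hne
    exact hy (two_le_of hxy.symm (hπ y hy).1.symm hne)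
  have hcard : ∀ b, (S.filter (fun z => c z = b)).card = {x | x ∈ nonLeaves T ∧ c x = b}.ncard := by
    intro b
    rw [← Set.ncard_coe_finset]
    congr 1
    ext z
    rw [Finset.mem_coe, Finset.mem_filter, hSm]
    rfl
  have hleaf : ∀ x ∈ S, (Sᶜ.filter (fun y => π y = x)).card =
      {y | T.Adj x y ∧ y ∉ nonLeaves T}.ncard := by
    intro x _
    rw [← Set.ncard_coe_finset]
    congr 1
    ext y
    rw [Finset.mem_coe, Finset.mem_filter, Finset.mem_compl, hSm]
    constructor
    · rintro ⟨hy, rfl⟩
      exact ⟨(hπ y hy).1, hy⟩
    · rintro ⟨h, hy⟩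
      exact ⟨hy, (hπu y hy x h).symm⟩
  have hgr : Graceful T := lob (S := S) (κ := κ) (π := π) hT hc hSm hκ hNC
    (fun y hy => by
      rw [hSm] at hy ⊢
      exact ⟨(hπ y hy).2, (hπ y hy).1⟩)
    (fun y hy => by
      rw [hSm] at hy
      exact hπu y hy) ρ
    (fun b => by rw [hcard]; exact h2 b)
    (fun b => by rw [hcard, hcard]; exact hρ b)
    (fun x hx => by rw [hleaf x hx]; exact hl x ((hSm x).1 hx)) hρ1
  have hmem : T.edgeSet.ncard ∈ gracefulSizes T :=
    ⟨V, inferInstance, T, hT, hgr, SimpleGraph.IsContained.refl T, rfl⟩
  have h1 : gamma T = T.edgeSet.ncard :=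
    le_antisymm (Nat.sInf_le hmem) (le_of_mem (Nat.sInf_mem ⟨_, hmem⟩))
  exact ⟨hgr, by rw [h1]; exact hmem, h1⟩

end Pool.Agent.Results.MP_128071_co.LobstersManyLeaves
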