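import Pool.Agent.T6.H87.MH.Add

/-!
# The smallest graceful tree containing a given tree: trees dominated by few vertices, up to a small part

For every `k` there is a constant `C` such that the following holds for every finite tree `T` with `m`
edges and every nonempty set `S` of at most `k` vertices of `T`.  Let `s` be the number of the vertices
which are neither in `S` nor adjacent to a vertex of `S`.

1. `m ≤ γ(T) ≤ max (m, C (s + 1))`.
2. If `C (s + 1) ≤ m`, that is, if all but a small proportion (depending on `k`) of the vertices are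
   adjacent to one of `k` vertices, then `T` is graceful and `γ(T) = m`.
3. If leaves are added at vertices of `S`, in an arbitrary way, such that the new tree has at least
   `C (s + 1)` edges, then the new tree is graceful.

The way in which the vertices of `S` are joined, the distribution of their neighbours and the shape of
the rest of the tree are arbitrary.
-/

set_option autoImplicit false

namespace Pool.Agent.Results.MP_128071_co.ManyHubs

open Pool.Agent.W322.GT (addLeaves)

/-- A graph with `m` edges is graceful if there is an injective map `f` of the vertices to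
`{0, 1, …, m}` such that the edge labels `|f u - f v|` are exactly `1, …, m`. -/
def Graceful {V : Type} (T : SimpleGraph V) : Prop :=
  ∃ f : V → ℕ, Function.Injective f ∧ (∀ v, f v ≤ T.edgeSet.ncard) ∧
    {d : ℕ | ∃ u v : V, T.Adj u v ∧ d = Int.natAbs ((f u : ℤ) - (f v : ℤ))} =
      Set.Icc 1 T.edgeSet.ncard

/-- The numbers of edges of the finite graceful trees which have a subgraph isomorphic to `T`. -/
def gracefulSizes {V : Type} (T : SimpleGraph V) : Set ℕ :=
  {k | ∃ (W : Type) (_ : Fintype W) (T' : SimpleGraph W),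
    T'.IsTree ∧ Graceful T' ∧ T.IsContained T' ∧ T'.edgeSet.ncard = k}

/-- `γ(T)`: the least number of edges of a graceful tree which has a subgraph isomorphic to `T`. -/
noncomputable def gamma {V : Type} (T : SimpleGraph V) : ℕ := sInf (gracefulSizes T)

/-- The number of the vertices which are neither in `S` nor adjacent to a vertex of `S`. -/
noncomputable def undominated {V : Type} (T : SimpleGraph V) (S : Set V) : ℕ :=
  {x : V | x ∉ S ∧ ∀ v ∈ S, ¬ T.Adj v x}.ncard

theorem le_of_mem {V : Type} {T : SimpleGraph V} {k : ℕ}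
    (hk : k ∈ gracefulSizes T) : T.edgeSet.ncard ≤ k := by
  classical
  obtain ⟨W, _, T', _, _, ⟨φ⟩, rfl⟩ := hk
  have hinj : Function.Injective φ := φ.injective
  have h1 : Sym2.map φ '' T.edgeSet ⊆ T'.edgeSet := by
    rintro _ ⟨e, he, rfl⟩
    induction e using Sym2.ind with
    | _ x y =>
      rw [Sym2.map_mk, SimpleGraph.mem_edgeSet]
      exact φ.toHom.map_adj ((SimpleGraph.mem_edgeSet T).1 he)
  calc T.edgeSet.ncard = (Sym2.map φ '' T.edgeSet).ncard :=
        (Set.ncard_image_of_injective _ (Sym2.map.injective hinj)).symm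
    _ ≤ T'.edgeSet.ncard := Set.ncard_le_ncard h1 (Set.toFinite _)

/-- For every `k` there is a constant `C` such that the following holds for every finite tree `T`
with `m` edges and every nonempty set `S` of at most `k` vertices. Let `s` be the number of the
vertices which are neither in `S` nor adjacent to a vertex of `S`.

1. `γ(T)` is attained and `m ≤ γ(T) ≤ max (m, C (s + 1))`.
2. If `C (s + 1) ≤ m` then `T` is graceful and `γ(T) = m`.
3. Let `addLeaves T l` be the tree `T` with `l x` new vertices joined to `x`, for all vertices `x`. If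
   `l x = 0` for all `x` outside `S` and `C (s + 1) ≤ m + ∑ l x`, then `addLeaves T l` is a graceful
   tree with `m + ∑ l x` edges. -/
theorem result (k : ℕ) : ∃ C : ℕ, ∀ (V : Type) [Fintype V] (T : SimpleGraph V), T.IsTree →
    ∀ S : Set V, S.Nonempty → S.ncard ≤ k →
      (gamma T ∈ gracefulSizes T ∧ T.edgeSet.ncard ≤ gamma T ∧
        gamma T ≤ max T.edgeSet.ncard (C * (undominated T S + 1))) ∧
      (C * (undominated T S + 1) ≤ T.edgeSet.ncard → Graceful T ∧ gamma T = T.edgeSet.ncard) ∧
      ∀ l : V → ℕ, (∀ x, x ∉ S → l x = 0) →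
        C * (undominated T S + 1) ≤ T.edgeSet.ncard + ∑ x, l x →
        (addLeaves T l).IsTree ∧ Graceful (addLeaves T l) ∧
          (addLeaves T l).edgeSet.ncard = T.edgeSet.ncard + ∑ x, l x := by
  obtain ⟨C₀, h0⟩ := Pool.Agent.T6.H87.MH.main k
  obtain ⟨C₁, h1⟩ := Pool.Agent.T6.H87.MH.add k
  refine ⟨max C₀ C₁, ?_⟩
  intro V _ T hT S hS hk
  classical
  have e : undominated T S = (Pool.Agent.T6.H87.MH.far T S).ncard := rfl
  have hadd : ∀ l : V → ℕ, (∀ x, x ∉ S → l x = 0) →
        max C₀ C₁ * (undominated T S + 1) ≤ T.edgeSet.ncard + ∑ x, l x →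
        (addLeaves T l).IsTree ∧ Graceful (addLeaves T l) ∧
          (addLeaves T l).edgeSet.ncard = T.edgeSet.ncard + ∑ x, l x := by
    intro l hl hm
    obtain ⟨a1, a2, a3⟩ := h1 V T hT S hk l hl
      ((Nat.mul_le_mul_right _ (le_max_right _ _)).trans hm)
    exact ⟨a1, a3, a2⟩
  have hgr : max C₀ C₁ * (undominated T S + 1) ≤ T.edgeSet.ncard → Graceful T := fun hm =>
    h0 V T hT S hk ((Nat.mul_le_mul_right _ (le_max_left _ _)).trans hm)
  obtain ⟨v, hv⟩ := hS
  obtain ⟨n, hn, hn'⟩ : ∃ n ∈ gracefulSizes T,
      n ≤ max T.edgeSet.ncard (max C₀ C₁ * (undominated T S + 1)) := by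
    obtain ⟨a1, a2, a3⟩ := hadd
      (fun x => if x = v then max C₀ C₁ * (undominated T S + 1) - T.edgeSet.ncard else 0)
      (fun x hx => by
        have : x ≠ v := fun h => hx (h ▸ hv)
        simp [this])
      (by
        rw [Finset.sum_ite_eq' Finset.univ v, if_pos (Finset.mem_univ v)]
        omega)
    refine ⟨_, ⟨_, inferInstance, _, a1, a2, Pool.Agent.W322.GT.addLeaves_contains T _, rfl⟩, ?_⟩
    rw [a3, Finset.sum_ite_eq' Finset.univ v, if_pos (Finset.mem_univ v)]
    omega
  have hmem : gamma T ∈ gracefulSizes T := Nat.sInf_mem ⟨n, hn⟩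
  refine ⟨⟨hmem, le_of_mem hmem, (Nat.sInf_le hn).trans hn'⟩, ?_, hadd⟩
  intro hm
  have hg := hgr hm
  refine ⟨hg, le_antisymm (Nat.sInf_le ?_) (le_of_mem hmem)⟩
  exact ⟨V, inferInstance, T, hT, hg, SimpleGraph.IsContained.refl T, rfl⟩

end Pool.Agent.Results.MP_128071_co.ManyHubs
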