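import Pool.Agent.T6.H97.QN.Main

/-!
# The smallest graceful tree containing a given tree: `γ(T) = |E(T)|` for trees with `k` non-leaves
and at least `10^39 k^2` edges

Let `T` be a finite tree with `m` edges and `k` vertices of degree at least two.  Then `T` is graceful,
so `T` itself is the smallest graceful tree containing `T`, in each of the following cases.

1. `m ≥ 10^39 k^2`.
2. Two vertices are adjacent to at least `10^20 k` leaves each, and they have no common neighbour of
   degree two.
3. Three vertices are adjacent to at least `10^20 k` leaves each.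
4. Some vertex is adjacent to at least `10^20 k` leaves and to a vertex which is adjacent to at least
   `k - 2` leaves.

In all cases the shape of the tree of the non-leaves and the numbers of leaves at the other vertices are
arbitrary.  The starting result `FewNonLeaves` needs `10^28 k^46` vertices instead of 1.
-/

set_option autoImplicit false

namespace Pool.Agent.Results.MP_128071_co.QuadraticNonLeaves

/-- A graph with `m` edges is graceful if there is an injective map `f` of the vertices to
`{0, 1, …, m}` such that the edge labels `|f u - f v|` are exactly `1, …, m`. -/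
def Graceful {V : Type} (T : SimpleGraph V) : Prop :=
  ∃ f : V → ℕ, Function.Injective f ∧ (∀ v, f v ≤ T.edgeSet.ncard) ∧
    {d : ℕ | ∃ u v : V, T.Adj u v ∧ d = Int.natAbs ((f u : ℤ) - (f v : ℤ))} =
      Set.Icc 1 T.edgeSet.ncard

/-- The numbers of edges of the finite graceful trees which have a subgraph isomorphic to `T`. -/
def gracefulSizes {V : Type} (T : SimpleGraph V) : Set ℕ :=
  {k | ∃ (W : Type) (_ : Fintype W) (T' : SimpleGraph W),
    T'.IsTree ∧ Graceful T' ∧ T.IsContained T' ∧ T'.edgeSet.ncard = k}

/-- `γ(T)`: the least number of edges of a graceful tree which has a subgraph isomorphic to `T`. -/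
noncomputable def gamma {V : Type} (T : SimpleGraph V) : ℕ := sInf (gracefulSizes T)

/-- The number of the vertices of degree at least two. -/
noncomputable def nonLeaves {V : Type} (T : SimpleGraph V) : ℕ :=
  {w : V | 2 ≤ (T.neighborSet w).ncard}.ncard

/-- The number of the leaves (vertices of degree one) adjacent to `v`. -/
noncomputable def leavesAt {V : Type} (T : SimpleGraph V) (v : V) : ℕ :=
  {x : V | T.Adj v x ∧ (T.neighborSet x).ncard = 1}.ncard

theorem le_of_mem {V : Type} {T : SimpleGraph V} {k : ℕ}
    (hk : k ∈ gracefulSizes T) : T.edgeSet.ncard ≤ k := by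
  classical
  obtain ⟨W, _, T', _, _, ⟨φ⟩, rfl⟩ := hk
  have hinj : Function.Injective φ := φ.injective
  have h1 : Sym2.map φ '' T.edgeSet ⊆ T'.edgeSet := by
    rintro _ ⟨e, he, rfl⟩
    induction e using Sym2.ind with
    | _ x y =>
      rw [Sym2.map_mk, SimpleGraph.mem_edgeSet]
      exact φ.toHom.map_adj ((SimpleGraph.mem_edgeSet T).1 he)
  calc T.edgeSet.ncard = (Sym2.map φ '' T.edgeSet).ncard :=
        (Set.ncard_image_of_injective _ (Sym2.map.injective hinj)).symm
    _ ≤ T'.edgeSet.ncard := Set.ncard_le_ncard h1 (Set.toFinite _)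

/-- Let `T` be a finite tree with `m` edges and `k` vertices of degree at least two.  Suppose that
`10^39 k^2 ≤ m`; or that two vertices without a common neighbour of degree two are adjacent to at least
`10^20 k` leaves each; or that three vertices are adjacent to at least `10^20 k` leaves each; or that a
vertex with at least `10^20 k` leaves is adjacent to a vertex with at least `k - 2` leaves.  Then `T` is
graceful and `γ(T) = |E(T)|`: `T` is a smallest graceful tree containing `T`. -/
theorem result (V : Type) [Fintype V] (T : SimpleGraph V) (hT : T.IsTree)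
    (h : 10 ^ 39 * nonLeaves T ^ 2 ≤ T.edgeSet.ncard ∨
      (∃ v w : V, v ≠ w ∧ 10 ^ 20 * nonLeaves T ≤ leavesAt T v ∧
        10 ^ 20 * nonLeaves T ≤ leavesAt T w ∧
        ∀ u, T.Adj u v → T.Adj u w → (T.neighborSet u).ncard ≠ 2) ∨
      (∃ v w x : V, v ≠ w ∧ v ≠ x ∧ w ≠ x ∧ 10 ^ 20 * nonLeaves T ≤ leavesAt T v ∧
        10 ^ 20 * nonLeaves T ≤ leavesAt T w ∧ 10 ^ 20 * nonLeaves T ≤ leavesAt T x) ∨
      ∃ v w : V, T.Adj v w ∧ 10 ^ 20 * nonLeaves T ≤ leavesAt T v ∧
        nonLeaves T ≤ leavesAt T w + 2) :
    Graceful T ∧ T.edgeSet.ncard ∈ gracefulSizes T ∧ gamma T = T.edgeSet.ncard := by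
  have hg : Graceful T :=
    Pool.Agent.T6.H97.QN.main V T hT (nonLeaves T) rfl (leavesAt T) (fun _ => rfl) h
  have hm : T.edgeSet.ncard ∈ gracefulSizes T :=
    ⟨V, inferInstance, T, hT, hg, SimpleGraph.IsContained.refl T, rfl⟩
  exact ⟨hg, hm, le_antisymm (Nat.sInf_le hm) (le_of_mem (Nat.sInf_mem ⟨_, hm⟩))⟩

end Pool.Agent.Results.MP_128071_co.QuadraticNonLeaves
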